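import Mathlib
import Pool.Agent.MP_dd7250_nt.LS.FN

/- The two over two ratios conjecture over F_q[t] for shifts of size c / g, with error term
exponentially small in c. -/

set_option autoImplicit false
set_option maxHeartbeats 400000

namespace Pool.Agent.Results.MP_dd7250_nt.RatiosLocal

open Polynomial Finset Pool.Agent.MP_dd7250_nt

theorem result (F : Type) [Field F] [Fintype F] (hq : Odd (Fintype.card F)) (M : ℝ) :
    ∃ K κ c₀ : ℝ, 0 < κ ∧ 0 < c₀ ∧ ∀ g : ℕ, 1 ≤ g → ∀ (c : ℝ) (α β γ δ : ℂ),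
      0 < c → c ≤ c₀ * g → ‖α‖ ≤ M * c / g → ‖β‖ ≤ M * c / g → ‖γ‖ ≤ M * c / g →
      ‖δ‖ ≤ M * c / g → c / g ≤ γ.re → c / g ≤ δ.re → α ≠ 0 → β ≠ 0 → α + β ≠ 0 → α - β ≠ 0 →
      ‖avg g (fun D : F[X] => Lf D (1 / 2 + α) * Lf D (1 / 2 + β) /
          (Lf D (1 / 2 + γ) * Lf D (1 / 2 + δ))) -
        ∑ e₁ ∈ ({1, -1} : Finset ℤ), ∑ e₂ ∈ ({1, -1} : Finset ℤ),
          (Fintype.card F : ℂ) ^ (-(g * ((1 - e₁) * α + (1 - e₂) * β))) *
            GG F (e₁ * α) (e₂ * β) γ δ‖ ≤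
        K * (Fintype.card F : ℝ) ^
          (-(κ * c) + 2 * g * max 0 (-α.re) + 2 * g * max 0 (-β.re)) := by
  have hF : ringChar F ≠ 2 := fun h => by
    have := FiniteField.even_card_of_char_two h
    rcases hq with ⟨k, hk⟩
    omega
  obtain ⟨K, κ, c₀, hκ, hc₀, h⟩ := LS.fin_main hF (le_max_right M 1)
  refine ⟨K, κ, c₀, hκ, hc₀, fun g hg c α β γ δ hc hc1 h1 h2 h3 h4 r3 r4 a1 a2 a3 a4 => ?_⟩
  have hg0 : (0 : ℝ) < g := by exact_mod_cast hg
  have hM : M * c / g ≤ max M 1 * (c / g) := by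
    rw [mul_div_assoc]
    exact mul_le_mul_of_nonneg_right (le_max_left _ _) (by positivity)
  have key := h g (c / g) α β γ δ hg ⟨by positivity, h1.trans hM, h2.trans hM, h3.trans hM,
    h4.trans hM, r3, r4⟩ ((div_le_iff₀ hg0).2 hc1) a1 a2 a3 a4
  have e4 : ∀ x y : ℂ, (Q F : ℂ) ^ (-(g * (2 * x + 2 * y))) =
      (LS.xv F x ^ 2) ^ g * (LS.xv F y ^ 2) ^ g := fun x y => by
    rw [← mul_pow, ← mul_pow, ← LS.xv_add, LS.xv, ← pow_mul, ← Complex.cpow_nat_mul]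
    congr 1
    push_cast
    ring
  have f1 := e4 0 β
  have f2 := e4 α 0
  have f3 := e4 α β
  simp only [mul_zero, zero_add, add_zero, LS.xv_zero, one_pow, one_mul, mul_one] at f1 f2
  rw [avg_eq hg, sum_congr rfl fun D hD => by
    rw [LS.Lf_eq_LD hF hD, LS.Lf_eq_LD hF hD, LS.Lf_eq_LD hF hD, LS.Lf_eq_LD hF hD],
    sum_pair (by decide), sum_pair (by decide), sum_pair (by decide)]
  simp only [Int.cast_one, Int.cast_neg, sub_self, zero_mul, sub_neg_eq_add, one_add_one_eq_two,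
    zero_add, add_zero, mul_zero, neg_zero, Complex.cpow_zero, one_mul, neg_mul, f1, f2, f3]
  refine key.trans_eq ?_
  rw [qp]
  congr 2
  field_simp

end Pool.Agent.Results.MP_dd7250_nt.RatiosLocal
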